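import Pool.Agent.Y142.ZS.Stm
import Pool.Agent.Y949.ZI.Char

set_option autoImplicit false

/-! Project Y142-ZS (helper142), task CHARS (helper779): the characteristic polynomial of a similitude near `1`. -/

open Matrix Polynomial Filter Topology
open Pool.Agent.Y142.ZO Pool.Agent.Y142.ZI Pool.Agent.Y142.ZS Pool.Agent.Y949.ZI

namespace Pool.Agent.Y779.ZS

/-- the eigenvalues of a similitude with multiplier `m` are stable under `x ↦ m / x` -/
theorem sim_root {K : Type} [Field K] {N : ℕ} {L : Type} [Field L] (f : K →+* L)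
    {B g : Matrix (Fin N) (Fin N) K} (hB : B.det ≠ 0) {m : K} (hg : Sim B g m) (x : L)
    (hx0 : x ≠ 0) (hx : g.charpoly.eval₂ f x = 0) : g.charpoly.eval₂ f (f m / x) = 0 := by
  have e : ∀ y : L, g.charpoly.eval₂ f y = (Matrix.scalar (Fin N) y - g.map f).det := by
    intro y
    rw [← eval_charpoly, Matrix.charpoly_map, eval_map]
  rw [e] at hx ⊢
  have h1 : (g.map f)ᵀ * B.map f * g.map f = f m • B.map f := by
    have h2 := congrArg (fun M : Matrix (Fin N) (Fin N) K => M.map f) hg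
    have h3 : (m • B).map f = f m • B.map f := by
      ext i j
      simp
    rw [← h3, ← h2]
    simp [Matrix.map_mul, Matrix.transpose_map]
  have s : ∀ y : L, Matrix.scalar (Fin N) y = y • (1 : Matrix (Fin N) (Fin N) L) := by
    intro y
    ext i j
    by_cases hij : i = j
    · subst hij; simp
    · simp [hij]
  have h3 : B.map f * (Matrix.scalar (Fin N) (f m / x) - g.map f) =
      (x⁻¹ • ((g.map f)ᵀ - Matrix.scalar (Fin N) x)) * (B.map f * g.map f) := by
    rw [s, s, smul_sub, smul_smul, inv_mul_cancel₀ hx0, one_smul, sub_mul, smul_mul_assoc,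
      ← mul_assoc, h1, one_mul, mul_sub, mul_smul_comm, mul_one, smul_smul, div_eq_mul_inv,
      mul_comm (f m)]
  have h4 := congrArg Matrix.det h3
  have h5 : ((g.map f)ᵀ - Matrix.scalar (Fin N) x).det = 0 := by
    have h6 : ((g.map f)ᵀ - Matrix.scalar (Fin N) x) = -(Matrix.scalar (Fin N) x - g.map f)ᵀ := by
      rw [transpose_sub, neg_sub]
      congr 1
      ext i j
      by_cases hij : i = j
      · subst hij; simp
      · simp [hij, Ne.symm hij]
    rw [h6, det_neg, det_transpose, hx, mul_zero]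
  rw [det_mul, det_mul, det_smul, h5, mul_zero, zero_mul] at h4
  have h7 : (B.map f).det ≠ 0 := by
    have h8 : (B.map f).det = f B.det := (RingHom.map_det f B).symm
    rw [h8]
    exact (_root_.map_ne_zero f).2 hB
  exact (mul_eq_zero.1 h4).resolve_left h7

theorem t : S_CHARS := by
  intro ℓ _ N hN J T _ hJ hT ε hε
  have hℓ0 : (ℓ : ℚ_[ℓ]) ≠ 0 := by
    exact_mod_cast (Fact.out : ℓ.Prime).ne_zero
  have hne : Nonempty (Fin N) := ⟨⟨0, hN⟩⟩
  obtain ⟨a₀, b₀, hab⟩ : ∃ a b, J a b ≠ 0 := by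
    by_contra hcon
    push Not at hcon
    apply hJ
    have h1 : J = 0 := by
      ext i j
      exact hcon i j
    rw [h1]
    exact det_zero
  have hη : 0 < ε * ‖J a₀ b₀‖ := mul_pos hε (norm_pos_iff.2 hab)
  -- the neighbourhood
  have hnb : ∀ᶠ z : ℚ_[ℓ] × (Fin N → Fin N → ℚ_[ℓ]) in 𝓝 (0, T),
      (1 + z.1 • (Matrix.of z.2)).det ≠ 0 ∧
      ‖((Matrix.of z.2)ᵀ * J + J * (Matrix.of z.2) +
        z.1 • ((Matrix.of z.2)ᵀ * J * (Matrix.of z.2))) a₀ b₀‖ < ε * ‖J a₀ b₀‖ ∧
      ∀ j ∈ Finset.range (N + 1), ‖(Matrix.of z.2).charpoly.coeff j - T.charpoly.coeff j‖ < ε := by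
    refine Filter.Eventually.and ?_ (Filter.Eventually.and ?_ ?_)
    · have hc : Continuous fun z : ℚ_[ℓ] × (Fin N → Fin N → ℚ_[ℓ]) => (1 + z.1 • (Matrix.of z.2)).det := by
        refine Continuous.matrix_det ?_
        exact continuous_const.add (continuous_fst.smul continuous_snd)
      have h1 := hc.tendsto (0, T)
      have h2 : (1 + (0 : ℚ_[ℓ]) • (Matrix.of T)).det = 1 := by rw [zero_smul, add_zero, det_one]
      simp only [h2] at h1
      exact h1.eventually_ne one_ne_zero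
    · have hof : Continuous fun z : ℚ_[ℓ] × (Fin N → Fin N → ℚ_[ℓ]) => (Matrix.of z.2) :=
        continuous_snd
      have hc0 : Continuous fun z : ℚ_[ℓ] × (Fin N → Fin N → ℚ_[ℓ]) =>
          ((Matrix.of z.2)ᵀ * J + J * (Matrix.of z.2) +
            z.1 • ((Matrix.of z.2)ᵀ * J * (Matrix.of z.2))) := by
        have ht : Continuous fun z : ℚ_[ℓ] × (Fin N → Fin N → ℚ_[ℓ]) => (Matrix.of z.2)ᵀ :=
          hof.matrix_transpose
        exact ((ht.matrix_mul continuous_const).add (continuous_const.matrix_mul hof)).add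
          (continuous_fst.smul ((ht.matrix_mul continuous_const).matrix_mul hof))
      have hc : Continuous fun z : ℚ_[ℓ] × (Fin N → Fin N → ℚ_[ℓ]) =>
          ‖((Matrix.of z.2)ᵀ * J + J * (Matrix.of z.2) +
            z.1 • ((Matrix.of z.2)ᵀ * J * (Matrix.of z.2))) a₀ b₀‖ :=
        (hc0.matrix_elem a₀ b₀).norm
      have h1 := hc.tendsto (0, T)
      have h2 : ‖((Matrix.of T)ᵀ * J + J * (Matrix.of T) +
            (0 : ℚ_[ℓ]) • ((Matrix.of T)ᵀ * J * (Matrix.of T))) a₀ b₀‖ = 0 := by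
        have h3 : (Matrix.of T) = T := rfl
        have h4 : Tᵀ * J + J * T = 0 := hT
        rw [h3, zero_smul, add_zero, h4]
        simp
      simp only [h2] at h1
      exact h1.eventually_lt_const hη
    · rw [Finset.eventually_all]
      intro j _
      have hc : Continuous fun z : ℚ_[ℓ] × (Fin N → Fin N → ℚ_[ℓ]) =>
          ‖(Matrix.of z.2).charpoly.coeff j - T.charpoly.coeff j‖ :=
        (((continuous_coeff_charpoly j).comp continuous_snd).sub continuous_const).norm
      have h1 := hc.tendsto (0, T)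
      have h2 : ‖(Matrix.of T).charpoly.coeff j - T.charpoly.coeff j‖ = 0 := by
        have : (Matrix.of T) = T := rfl
        rw [this, sub_self, norm_zero]
      simp only [h2] at h1
      exact h1.eventually_lt_const hε
  obtain ⟨δ, hδ, hball⟩ := Metric.eventually_nhds_iff.1 hnb
  obtain ⟨k₀, hk₀⟩ : ∃ k₀ : ℕ, ∀ k, k₀ ≤ k → ‖(ℓ : ℚ_[ℓ]) ^ k‖ < δ := by
    have hlim0 : Tendsto (fun n : ℕ => (ℓ : ℚ_[ℓ]) ^ n) atTop (𝓝 0) :=
      tendsto_pow_atTop_nhds_zero_of_norm_lt_one Padic.norm_p_lt_one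
    have h1 := (tendsto_zero_iff_norm_tendsto_zero.1 hlim0).eventually_lt_const hδ
    exact eventually_atTop.1 h1
  refine ⟨δ, k₀, hδ, fun k g m hk hg hgT => ?_⟩
  set c : ℚ_[ℓ] := (ℓ : ℚ_[ℓ]) ^ k with hc
  have hc0 : c ≠ 0 := pow_ne_zero _ hℓ0
  set A : Matrix (Fin N) (Fin N) ℚ_[ℓ] := c⁻¹ • (g - 1) with hA
  have hgA : g = 1 + c • A := by
    rw [hA, smul_smul, mul_inv_cancel₀ hc0, one_smul]
    abel
  clear_value A
  obtain ⟨hdet, hsm, hcoef⟩ := hball (y := (c, A)) (by
    rw [Prod.dist_eq, max_lt_iff]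
    constructor
    · rw [dist_zero_right]
      exact hk₀ k hk
    · rw [dist_pi_lt_iff hδ]
      intro a
      rw [dist_pi_lt_iff hδ]
      intro b
      rw [dist_eq_norm]
      exact hgT a b)
  simp only at hdet hsm hcoef
  have hof : (Matrix.of A) = A := rfl
  rw [hof, ← hgA] at hdet
  rw [hof] at hcoef hsm
  have hgd : g.charpoly.natDegree = N := by rw [charpoly_natDegree_eq_dim, Fintype.card_fin]
  -- the multiplier
  have hm : (m - 1) • J = c • (Aᵀ * J + J * A + c • (Aᵀ * J * A)) := by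
    have h1 : gᵀ * J * g = m • J := hg
    have h2 : gᵀ * J * g = J + c • (Aᵀ * J + J * A + c • (Aᵀ * J * A)) := by
      have e1 : (1 + c • A)ᵀ = 1 + c • Aᵀ := by
        rw [transpose_add, transpose_one, transpose_smul]
      have e2 : (1 + c • Aᵀ) * J = J + c • (Aᵀ * J) := by
        rw [add_mul, one_mul, smul_mul_assoc]
      have e3 : (J + c • (Aᵀ * J)) * (1 + c • A) =
          J + c • (Aᵀ * J) + (c • (J * A) + c • c • (Aᵀ * J * A)) := by
        rw [mul_add, mul_one, add_mul, mul_smul_comm, mul_smul_comm, smul_mul_assoc]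
      rw [hgA, e1, e2, e3, smul_add, smul_add]
      abel
    rw [sub_smul, one_smul, ← h1, h2]
    abel
  have hm0 : m ≠ 0 := by
    rintro rfl
    have h1 : gᵀ * J * g = (0 : ℚ_[ℓ]) • J := hg
    rw [zero_smul] at h1
    have h2 := congrArg Matrix.det h1
    rw [det_mul, det_mul, det_transpose, det_zero] at h2
    exact (mul_ne_zero (mul_ne_zero hdet hJ) hdet) h2
  have hnc : ‖c‖ = ((ℓ : ℝ) ^ k)⁻¹ := by
    rw [hc, norm_pow, Padic.norm_p, inv_pow]
  refine ⟨hm0, ?_, ?_, ?_⟩
  · have h1 := congrArg (fun M : Matrix (Fin N) (Fin N) ℚ_[ℓ] => M a₀ b₀) hm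
    simp only [Matrix.smul_apply, smul_eq_mul] at h1
    have h2 := congrArg norm h1
    rw [norm_mul, norm_mul] at h2
    have hcn : 0 < ‖c‖ := norm_pos_iff.2 hc0
    have hJn : 0 < ‖J a₀ b₀‖ := norm_pos_iff.2 hab
    rw [← hnc]
    have h3 : ‖m - 1‖ * ‖J a₀ b₀‖ < (ε * ‖c‖) * ‖J a₀ b₀‖ := by
      rw [h2]
      calc _ < ‖c‖ * (ε * ‖J a₀ b₀‖) := by
            refine mul_lt_mul_of_pos_left ?_ hcn
            exact hsm
        _ = _ := by ring
    exact lt_of_mul_lt_mul_right h3 hJn.le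
  · intro j
    have h1 : resc ℓ k g.charpoly = A.charpoly := by
      unfold resc
      rw [hgd, hgA, ← hc, charpoly_comp A c, ← mul_assoc, ← C_mul, ← mul_pow, inv_mul_cancel₀ hc0,
        one_pow, C_1, one_mul]
    rw [h1, coeff_sub]
    by_cases hj : j ∈ Finset.range (N + 1)
    · exact hcoef _ hj
    · have hj2 : N < j := by
        rw [Finset.mem_range] at hj
        omega
      rw [coeff_eq_zero_of_natDegree_lt, coeff_eq_zero_of_natDegree_lt, sub_zero, norm_zero]
      · exact hε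
      · rw [charpoly_natDegree_eq_dim, Fintype.card_fin]; exact hj2
      · rw [charpoly_natDegree_eq_dim, Fintype.card_fin]; exact hj2
  · intro x hgx
    have hx0 : x ≠ 0 := by
      rintro rfl
      rw [← coeff_zero_eq_aeval_zero'] at hgx
      have h2 : g.charpoly.coeff 0 = 0 := (_root_.map_eq_zero _).1 hgx
      have h3 := Matrix.det_eq_sign_charpoly_coeff g
      rw [h2, mul_zero] at h3
      exact hdet h3
    exact ⟨hx0, sim_root (algebraMap ℚ_[ℓ] (AlgebraicClosure ℚ_[ℓ])) hJ hg x hx0 hgx⟩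

end Pool.Agent.Y779.ZS
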